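import Mathlib

set_option autoImplicit false

namespace Pool.Agent.Results.MP_fa43b0_al.Symmetric

/-- lattice terms in variables from `α` -/
inductive Tm (α : Type) : Type
  | var : α → Tm α
  | sup : Tm α → Tm α → Tm α
  | inf : Tm α → Tm α → Tm α

/-- the value of a term in a lattice -/
def Tm.eval {α L : Type} [Lattice L] (v : α → L) : Tm α → L
  | .var a => v a
  | .sup s t => s.eval v ⊔ t.eval v
  | .inf s t => s.eval v ⊓ t.eval v

/-- renaming of the variables of a term -/
def Tm.ren {α β : Type} (g : α → β) : Tm α → Tm β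
  | .var a => .var (g a)
  | .sup s t => .sup (s.ren g) (t.ren g)
  | .inf s t => .inf (s.ren g) (t.ren g)

/-- an identity `lhs ≈ rhs` between `n`-ary terms -/
structure Id : Type where
  n : ℕ
  lhs : Tm (Fin n)
  rhs : Tm (Fin n)

/-- the lattice `L` satisfies the identity `e` -/
def Sat (L : Type) [Lattice L] (e : Id) : Prop := ∀ v : Fin e.n → L, e.lhs.eval v = e.rhs.eval v

/-- `t = t_σ` in the free lattice (that is, in every lattice) for every permutation `σ` -/
def SymmTm {n : ℕ} (t : Tm (Fin n)) : Prop :=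
  ∀ (σ : Equiv.Perm (Fin n)) (K : Type) [Lattice K], Sat K ⟨n, t, t.ren σ⟩

/-- `e` holds in the variety defined by the set `E` of identities -/
def Valid (E : Set Id) (e : Id) : Prop := ∀ (K : Type) [Lattice K], (∀ d ∈ E, Sat K d) → Sat K e

theorem eval_ren {α β L : Type} [Lattice L] (v : β → L) (g : α → β) (t : Tm α) :
    (t.ren g).eval v = t.eval (v ∘ g) := by
  induction t with
  | var a => rfl
  | sup s t h1 h2 => simp only [Tm.ren, Tm.eval, h1, h2]
  | inf s t h1 h2 => simp only [Tm.ren, Tm.eval, h1, h2]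

theorem eval_mono {α L : Type} [Lattice L] {v w : α → L} (h : ∀ a, v a ≤ w a) (t : Tm α) :
    t.eval v ≤ t.eval w := by
  induction t with
  | var a => exact h a
  | sup s t h1 h2 => exact sup_le_sup h1 h2
  | inf s t h1 h2 => exact inf_le_inf h1 h2

theorem max_filter {L : Type} [Lattice L] {α β : L} (h : ¬ α ≤ β) :
    ∃ F : Set L, α ∈ F ∧ β ∉ F ∧ (∀ x ∈ F, ∀ y, x ≤ y → y ∈ F) ∧ (∀ x ∈ F, ∀ y ∈ F, x ⊓ y ∈ F) ∧
      ∀ c ∉ F, ∃ f ∈ F, c ⊓ f ≤ β := by
  obtain ⟨F, h1, h2⟩ := zorn_subset_nonempty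
    {F : Set L | β ∉ F ∧ (∀ x ∈ F, ∀ y, x ≤ y → y ∈ F) ∧ ∀ x ∈ F, ∀ y ∈ F, x ⊓ y ∈ F} (by
      intro c hc hch _
      refine ⟨⋃₀ c, ⟨?_, ?_, ?_⟩, fun s hs => Set.subset_sUnion_of_mem hs⟩
      · rintro ⟨s, hs, hb⟩
        exact (hc hs).1 hb
      · rintro x ⟨s, hs, hx⟩ y hy
        exact ⟨s, hs, (hc hs).2.1 x hx y hy⟩
      · rintro x ⟨s, hs, hx⟩ y ⟨t, ht, hy⟩
        rcases hch.total hs ht with h | h
        · exact ⟨t, ht, (hc ht).2.2 x (h hx) y hy⟩
        · exact ⟨s, hs, (hc hs).2.2 x hx y (h hy)⟩) (Set.Ici α)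
    ⟨h, fun _ hx _ hy => hx.trans hy, fun _ hx _ hy => le_inf hx hy⟩
  obtain ⟨a1, a2, a3⟩ := h2.prop
  refine ⟨F, h1 le_rfl, a1, a2, a3, fun c hc => ?_⟩
  by_contra hn
  push Not at hn
  have := h2.le_of_ge (y := {x | ∃ f ∈ F, c ⊓ f ≤ x}) ⟨fun ⟨f, hf, h⟩ => hn f hf h,
    fun x ⟨f, hf, h⟩ y hy => ⟨f, hf, h.trans hy⟩,
    fun x ⟨f, hf, h⟩ y ⟨g, hg, h'⟩ => ⟨f ⊓ g, a3 f hf g hg,
      le_inf ((inf_le_inf_left _ inf_le_left).trans h) ((inf_le_inf_left _ inf_le_right).trans h')⟩⟩
    fun f hf => ⟨f, hf, inf_le_right⟩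
  exact hc (this ⟨α, h1 le_rfl, inf_le_left⟩)

section core
variable {L J : Type} [Lattice L] [Fintype J] [DecidableEq J] (F : Set L) (v : L → J → L)

def Hi (r : Tm J) : Prop := ∀ f ∈ F, r.eval (v f) ∈ F

def Sim (k l : J) : Prop :=
  ∀ c : Tm (Option J), Hi F v (c.ren (·.getD k)) ↔ Hi F v (c.ren (·.getD l))

omit [Fintype J] [DecidableEq J] in
theorem hi_congr {r s : Tm J} (h : ∀ w : J → L, r.eval w = s.eval w) : Hi F v r ↔ Hi F v s := by
  simp only [Hi, h]

omit [Fintype J] [DecidableEq J] in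
theorem replace {β : Type} [Fintype β] (c : Tm β) (g h : β → J) (H : ∀ b, Sim F v (g b) (h b)) :
    Hi F v (c.ren g) ↔ Hi F v (c.ren h) := by
  classical
  have key : ∀ S : Finset β, Hi F v (c.ren g) ↔ Hi F v (c.ren (S.piecewise h g)) := by
    intro S
    induction S using Finset.induction_on with
    | empty => simp
    | insert b S hb ih =>
      have := H b (c.ren fun x => if x = b then none else some (S.piecewise h g x))
      refine ih.trans ((hi_congr F v fun w => ?_).trans (this.trans (hi_congr F v fun w => ?_)))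
      · simp only [eval_ren]
        congr 1
        ext x
        by_cases hx : x = b <;> simp [hx, hb]
      · simp only [eval_ren]
        congr 1
        ext x
        by_cases hx : x = b <;> simp [hx, Finset.piecewise_insert_of_ne]
  simpa using key Finset.univ

theorem fixes {n : ℕ} (blk : J → Fin n) (hb : ∀ i, (Finset.univ.filter (blk · = i)).card = 2 ^ (i : ℕ))
    (hv : ∀ f k l, blk k = blk l → v f k = v f l) (σ : Equiv.Perm J)
    (hσ : ∀ r : Tm J, Hi F v (r.ren σ) ↔ Hi F v r) (k : J) : Sim F v (σ k) k := by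
  classical
  have s1 : ∀ k l, blk k = blk l → Sim F v k l := by
    intro k l h c
    have : ∀ f, (v f ∘ fun o : Option J => o.getD k) = v f ∘ fun o : Option J => o.getD l := by
      intro f
      ext o
      cases o
      exacts [hv f k l h, rfl]
    simp only [Hi, eval_ren, this]
  have s2 : ∀ k l, Sim F v (σ k) (σ l) ↔ Sim F v k l := by
    have e : ∀ (c : Tm (Option J)) k, Hi F v ((c.ren (Option.map σ)).ren (·.getD (σ k))) ↔
        Hi F v (c.ren (·.getD k)) := by
      intro c k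
      rw [← hσ (c.ren _)]
      refine hi_congr F v fun w => ?_
      simp only [eval_ren]
      congr 1
      ext o
      cases o <;> rfl
    intro k l
    refine ⟨fun h c => (e c k).symm.trans ((h _).trans (e c l)), fun h c => ?_⟩
    have e2 : ∀ k, Hi F v (c.ren (·.getD (σ k))) ↔
        Hi F v ((c.ren (Option.map σ.symm)).ren (·.getD k)) := by
      intro k
      rw [← e _ k]
      refine hi_congr F v fun w => ?_
      simp only [eval_ren]
      congr 1
      ext o
      cases o <;> simp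
    exact (e2 k).trans ((h _).trans (e2 l).symm)
  let B : J → Finset (Fin n) := fun k => Finset.univ.filter fun i => ∃ l, Sim F v l k ∧ blk l = i
  have hc : ∀ k, (Finset.univ.filter (Sim F v · k)).card = ∑ i ∈ (B k).map Fin.valEmbedding, 2 ^ i := by
    intro k
    rw [Finset.sum_map, Finset.card_eq_sum_card_fiberwise (f := blk) (t := B k)
      (fun l hl => by simpa [B] using ⟨l, by simpa using hl, rfl⟩)]
    refine Finset.sum_congr rfl fun i hi => ?_
    obtain ⟨l, h1, rfl⟩ := (Finset.mem_filter.1 hi).2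
    rw [Fin.valEmbedding_apply, ← hb]
    congr 1
    ext x
    simp only [Finset.mem_filter, Finset.mem_univ, true_and, and_iff_right_iff_imp]
    exact fun h c => (s1 _ _ h c).trans (h1 c)
  have h1 : (Finset.univ.filter (Sim F v · (σ k))).card = (Finset.univ.filter (Sim F v · k)).card :=
    (Finset.card_equiv σ fun x => by simp [s2]).symm
  rw [hc, hc] at h1
  have h2 := Finset.map_injective _ (Finset.geomSum_injective le_rfl h1)
  have h3 : blk k ∈ B (σ k) := by
    rw [h2]
    exact Finset.mem_filter.2 ⟨Finset.mem_univ _, k, fun _ => Iff.rfl, rfl⟩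
  obtain ⟨l, h4, h5⟩ := (Finset.mem_filter.1 h3).2
  exact fun c => (h4 c).symm.trans (s1 _ _ h5 c)

end core

theorem blocks (n : ℕ) : ∃ (m : ℕ) (blk : Fin m → Fin n),
    ∀ i, (Finset.univ.filter (blk · = i)).card = 2 ^ (i : ℕ) := by
  let e := (Fintype.equivFin (Σ i : Fin n, Fin (2 ^ (i : ℕ)))).symm
  refine ⟨_, fun k => (e k).1, fun i => ?_⟩
  rw [Finset.card_equiv (t := Finset.univ.filter (·.1 = i)) e (by simp)]
  have : (Finset.univ.filter fun x : (Σ i : Fin n, Fin (2 ^ (i : ℕ))) => x.1 = i) =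
      Finset.univ.map (Function.Embedding.sigmaMk i) := by
    ext ⟨j, x⟩
    simp only [Finset.mem_filter, Finset.mem_univ, true_and, Finset.mem_map,
      Function.Embedding.sigmaMk_apply]
    constructor
    · rintro rfl
      exact ⟨x, rfl⟩
    · rintro ⟨y, h⟩
      exact (congrArg Sigma.fst h).symm
  rw [this]
  simp

theorem majority {n m : ℕ} (blk : Fin m → Fin (n + 1))
    (hb : ∀ i, (Finset.univ.filter (blk · = i)).card = 2 ^ (i : ℕ)) (σ : Equiv.Perm (Fin m)) :
    ∃ k, blk k = Fin.last n ∧ blk (σ k) = Fin.last n := by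
  by_contra h
  push Not at h
  have h1 : (Finset.univ.filter (blk · = Fin.last n)).card ≤
      (Finset.univ.filter fun k => ¬ blk k = Fin.last n).card :=
    Finset.card_le_card_of_injOn σ (fun k hk => by simpa using h k (by simpa using hk))
      σ.injective.injOn
  have h2 := Finset.card_filter_add_card_filter_not (s := Finset.univ) (blk · = Fin.last n)
  rw [Finset.card_eq_sum_card_fiberwise (s := Finset.univ) (f := blk) (t := Finset.univ) (by simp)]
    at h2
  simp only [hb] at h1 h2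
  rw [Fin.sum_univ_eq_sum_range (fun i => 2 ^ i), Finset.sum_range_succ, Nat.geomSum_eq le_rfl] at h2
  simp only [Fin.val_last] at h1 h2
  have := Nat.two_pow_pos n
  omega

theorem half (E : Set Id) (L : Type) [Lattice L]
    (h : ∀ e : Id, SymmTm e.lhs → SymmTm e.rhs → Valid E e → Sat L e) {n : ℕ} (t s : Tm (Fin n))
    (hts : ∀ (K : Type) [Lattice K], (∀ d ∈ E, Sat K d) → ∀ w : Fin n → K, t.eval w ≤ s.eval w)
    (a : Fin n → L) : t.eval a ≤ s.eval a := by
  by_contra hn
  obtain ⟨F, hα, hβ, up, hinf, hmax⟩ := max_filter hn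
  obtain ⟨m, blk, hb⟩ := blocks (n + 1)
  let v : L → Fin m → L := fun f k => Fin.snoc (α := fun _ => L) a f (blk k)
  have vm : ∀ f g, f ≤ g → ∀ r : Tm (Fin m), r.eval (v f) ≤ r.eval (v g) := fun f g h r =>
    eval_mono (fun k => by
      simp only [v]
      cases blk k using Fin.lastCases <;> simp [h]) r
  let Lo : Tm (Fin m) → Prop := fun r => ∃ f ∈ F, r.eval (v f) ≤ s.eval a
  have lo_sup : ∀ r r', Lo r → Lo r' → Lo (r.sup r') := fun r r' ⟨f, hf, h1⟩ ⟨g, hg, h2⟩ =>
    ⟨f ⊓ g, hinf f hf g hg, sup_le ((vm _ _ inf_le_left r).trans h1) ((vm _ _ inf_le_right r').trans h2)⟩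
  have lo_hi : ∀ r, Lo r → ¬ Hi F v r := fun r ⟨f, hf, h1⟩ h2 => hβ (up _ (h2 f hf) _ h1)
  have hsec : ∀ i, ∃ k, blk k = Fin.castSucc i := fun i => by
    obtain ⟨k, hk⟩ := Finset.card_pos.1 (hb (Fin.castSucc i) ▸ Nat.two_pow_pos _)
    exact ⟨k, (Finset.mem_filter.1 hk).2⟩
  choose sec hsec using hsec
  have va : ∀ f, v f ∘ sec = a := fun f => funext fun i => by simp [v, hsec]
  have ht : Hi F v (t.ren sec) := fun f _ => by rwa [eval_ren, va]
  have hs : Lo (s.ren sec) := ⟨_, hα, by rw [eval_ren, va]⟩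
  have good : ∀ σ : Equiv.Perm (Fin m), (¬ ∃ r : Tm (Fin m), Hi F v (r.ren σ) ∧ Lo r) →
      ∀ k, Sim F v (σ k) k := by
    intro σ hσ
    have c1 : ∀ r : Tm (Fin m), Hi F v (r.ren σ) → Hi F v r := by
      intro r hr f hf
      by_contra hc
      obtain ⟨g, hg, h1⟩ := hmax _ hc
      obtain ⟨k, k1, k2⟩ := majority blk hb σ
      refine hσ ⟨r.inf (.var k), fun x hx => hinf _ (hr x hx) _ ?_, f ⊓ g, hinf f hf g hg,
        le_trans (inf_le_inf (vm _ _ inf_le_left r) ?_) h1⟩
      · simpa [Tm.ren, Tm.eval, v, k2] using hx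
      · simp [Tm.eval, v, k1]
    have c2 : ∀ (j : ℕ) (r : Tm (Fin m)), Hi F v (r.ren (σ ^ j : Equiv.Perm _)) → Hi F v r := by
      intro j
      induction j with
      | zero => exact fun r => (hi_congr F v fun w => by rw [eval_ren]; rfl).1
      | succ j ih =>
        refine fun r hr => ih r (c1 _ ((hi_congr F v fun w => ?_).1 hr))
        rw [eval_ren, eval_ren, eval_ren, pow_succ']
        rfl
    refine fixes F v blk hb (fun f k l h => by simp only [v, h]) σ fun r => ⟨c1 r, fun hr => ?_⟩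
    refine c2 (orderOf σ - 1) _ ((hi_congr F v fun w => ?_).1 hr)
    have : σ ^ (orderOf σ - 1) * σ = 1 := by
      rw [← pow_succ, Nat.sub_add_cancel (orderOf_pos σ), pow_orderOf_eq_one]
    rw [eval_ren, eval_ren, Function.comp_assoc, ← Equiv.Perm.coe_mul, this]
    rfl
  have build : ∀ S : Finset (Equiv.Perm (Fin m)), ∃ p q : Tm (Fin m),
      (∀ (K : Type) [Lattice K], (∀ d ∈ E, Sat K d) → ∀ w : Fin m → K, p.eval w ≤ q.eval w) ∧
      (∀ σ ∈ S, Hi F v (p.ren σ)) ∧ ∀ R, Lo R → ¬ Hi F v (q.sup R) := by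
    intro S
    induction S using Finset.induction_on with
    | empty =>
      exact ⟨t.ren sec, s.ren sec, fun K _ hK w => by simpa only [eval_ren] using hts K hK _,
        by simp, fun R hR => lo_hi _ (lo_sup _ _ hs hR)⟩
    | insert σ S _ ih =>
      obtain ⟨p, q, h1, h2, h3⟩ := ih
      have fin : ∀ r : Tm (Fin m), Hi F v (r.ren σ) → ∀ τ ∈ insert σ S, Hi F v ((p.sup r).ren τ) := by
        intro r hr τ hτ f hf
        rcases Finset.mem_insert.1 hτ with rfl | hτ
        · exact up _ (hr f hf) _ le_sup_right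
        · exact up _ (h2 τ hτ f hf) _ le_sup_left
      by_cases hσ : ∃ r : Tm (Fin m), Hi F v (r.ren σ) ∧ Lo r
      · obtain ⟨r, r1, r2⟩ := hσ
        refine ⟨p.sup r, q.sup r, fun K _ hK w => sup_le_sup_right (h1 K hK w) _, fin r r1,
          fun R hR hH => h3 _ (lo_sup _ _ r2 hR) ((hi_congr F v fun w => sup_assoc _ _ _).1 hH)⟩
      · refine ⟨p.sup ((t.ren sec).ren σ.symm), q.sup ((s.ren sec).ren σ.symm),
          fun K _ hK w => sup_le_sup (h1 K hK w) (by simpa only [eval_ren] using hts K hK _),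
          fin _ ((hi_congr F v fun w => ?_).1 ht), fun R hR hH => h3 _ (lo_sup _ _ hs hR) ?_⟩
        · simp only [eval_ren]
          congr 1
          ext i
          simp
        · have := replace F v (((q.ren Sum.inl).sup ((s.ren sec).ren Sum.inr)).sup (R.ren Sum.inl))
            (Sum.elim id σ.symm) (Sum.elim id id) (by
              rintro (k | k)
              · exact fun _ => Iff.rfl
              · intro c
                simpa using (good σ hσ (σ.symm k) c).symm)
          refine (hi_congr F v fun w => ?_).1 (this.1 ((hi_congr F v fun w => ?_).1 hH))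
          · simp only [Tm.ren, Tm.eval, eval_ren, sup_assoc]
            rfl
          · simp only [Tm.ren, Tm.eval, eval_ren]
            rfl
  obtain ⟨p, q, h1, h2, h3⟩ := build Finset.univ
  have meet : ∀ (p : Tm (Fin m)) (S : Finset (Equiv.Perm (Fin m))), ∃ P : Tm (Fin m),
      (∀ (K : Type) [Lattice K] (w : Fin m → K) (x : K),
        x ≤ P.eval w ↔ x ≤ p.eval w ∧ ∀ σ ∈ S, x ≤ p.eval (w ∘ σ)) ∧
      ((∀ σ : Equiv.Perm (Fin m), Hi F v (p.ren σ)) → Hi F v P) := by
    intro p S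
    induction S using Finset.induction_on with
    | empty => exact ⟨p, by simp, fun h => (hi_congr F v fun w => by rw [eval_ren]; rfl).1 (h 1)⟩
    | insert σ S _ ih =>
      obtain ⟨P, a1, a2⟩ := ih
      refine ⟨P.inf (p.ren σ), fun K _ w x => ?_, fun h f hf => hinf _ (a2 h f hf) _ (h σ f hf)⟩
      simp only [Tm.eval, le_inf_iff, a1, eval_ren, Finset.forall_mem_insert]
      tauto
  have sym : ∀ p : Tm (Fin m), ∃ P : Tm (Fin m), SymmTm P ∧
      (∀ (K : Type) [Lattice K] (w : Fin m → K) (x : K),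
        x ≤ P.eval w ↔ ∀ σ : Equiv.Perm (Fin m), x ≤ p.eval (w ∘ σ)) ∧
      ((∀ σ : Equiv.Perm (Fin m), Hi F v (p.ren σ)) → Hi F v P) := by
    intro p
    obtain ⟨P, a1, a2⟩ := meet p Finset.univ
    have a3 : ∀ (K : Type) [Lattice K] (w : Fin m → K) (x : K),
        x ≤ P.eval w ↔ ∀ σ : Equiv.Perm (Fin m), x ≤ p.eval (w ∘ σ) := fun K _ w x =>
      (a1 K w x).trans ⟨fun h σ => h.2 σ (Finset.mem_univ _), fun h => ⟨h 1, fun σ _ => h σ⟩⟩
    refine ⟨P, fun τ K _ w => eq_of_forall_le_iff fun x => ?_, a3, a2⟩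
    simp only [eval_ren, a3]
    refine ⟨fun h σ => h (τ * σ), fun h σ => ?_⟩
    have := h (τ⁻¹ * σ)
    rwa [Function.comp_assoc, ← Equiv.Perm.coe_mul, mul_inv_cancel_left] at this
  obtain ⟨P, P1, P2, P3⟩ := sym p
  obtain ⟨Q, Q1, Q2, -⟩ := sym (p.inf q)
  have hPQ := h ⟨m, P, Q⟩ P1 Q1 fun K _ hK w => eq_of_forall_le_iff fun x => by
    simp only [P2, Q2, Tm.eval, inf_eq_left.2 (h1 K hK _)]
  refine h3 _ hs fun f hf => up _ (P3 (fun σ => h2 σ (Finset.mem_univ _)) f hf) _ ?_
  exact (((Q2 L (v f) _).1 (hPQ (v f)).le 1).trans inf_le_right).trans le_sup_left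

theorem result (E : Set Id) (L : Type) [Lattice L]
    (h : ∀ e : Id, SymmTm e.lhs → SymmTm e.rhs → Valid E e → Sat L e) : ∀ d ∈ E, Sat L d :=
  fun d hd a => le_antisymm (half E L h _ _ (fun _ _ hK w => (hK d hd w).le) a)
    (half E L h _ _ (fun _ _ hK w => (hK d hd w).ge) a)

end Pool.Agent.Results.MP_fa43b0_al.Symmetric
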